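import Pool.Agent.X40.PQ3

/-!
`B(p q^b) ≥ p (p + 1) / 2 > p` for all odd primes `p < q` and all `b ≥ 3`.

Method: `B(p q^b)` is `p` times the largest height of the products of `Φ_d`, `d ∣ p q^(b-1)`, `q ∣ d`, and
the height of `Φ_{pq} Φ_{q²}` is at least `p / 2`: if `p a(m) + q L(m) = m`, `0 ≤ a(m) < q`, then in a
certain range its coefficients are `L(m) - L(m-1)`, which takes two values of difference `p`.
-/

set_option autoImplicit false

open Pool.Agent.X40 in
/-- For all odd primes `p < q` and every `b > 2` the largest height `B (p q ^ b)` of a divisor of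
`X ^ (p q ^ b) - 1` in `ℤ[X]` is larger than `p`; in fact it is at least `p (p + 1) / 2`. -/
theorem Pool.Agent.Results.MP_7a0dfe_nt.StrictLowerBound.result (p q b : ℕ) (hp : p.Prime)
    (hq : q.Prime) (h2 : p ≠ 2) (hpq : p < q) (hb : 2 < b) :
    p < B (p * q ^ b) ∧ p * (p + 1) ≤ 2 * B (p * q ^ b) := by
  have h := le_B_pqb hp hq hpq h2 (b := b) (by omega)
  refine ⟨?_, h⟩
  have h3 : 3 ≤ p := by
    have := hp.two_le
    omega
  nlinarith
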